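import Pool.Agent.Helper78.SG.PartCMain
import Pool.Agent.Helper18.SG.Params

/-! Part C of the proof of frozen statement S01797. -/

set_option autoImplicit false

namespace Pool.Agent.Helper78.SG

open Pool.Agent.Helper68.SG

/-- file `PartC.lean` (uses `typeSystem`, `channels`, `params`) -/
theorem partC (n : ℕ) : ∃ p : Par, n ≤ p.n ∧ p.Ok ∧
    ∃ (A : Type) (_ : Fintype A) (w : (ℕ → Bool) → ℕ → A),
      (∀ b, ∃ tau C, Good p (w b) tau C) ∧ (∀ b b' j, w b j = w b' j → b j = b' j) :=
  partC_of n (Pool.Agent.Helper18.SG.params n)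

end Pool.Agent.Helper78.SG
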