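import Pool.Agent.Helper68.SG.Defs

/-! Part C of the proof of frozen statement S01797: the infinite words, level by level. -/

set_option autoImplicit false

namespace Pool.Agent.Helper78.SG

open Pool.Agent.Helper68.SG

/-- the counting function underlying `cnt` -/
def cntf (f : ℕ → ℕ) (L t a : ℕ) : ℕ :=
  ((Finset.range a).filter (fun b => L ∣ b ∧ f b = t)).card

theorem cnt_eq (p : Par) (tau : ℕ → ℕ → ℕ → ℕ) (i s t a : ℕ) :
    cnt p tau i s t a = cntf (tau i s) (p.len i) t a := rfl

theorem cntf_congr {f g : ℕ → ℕ} {L t a : ℕ} (h : ∀ b < a, L ∣ b → f b = g b) :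
    cntf f L t a = cntf g L t a := by
  unfold cntf
  congr 1
  apply Finset.filter_congr
  intro b hb
  constructor
  · rintro ⟨h1, h2⟩
    exact ⟨h1, by rw [← h b (Finset.mem_range.1 hb) h1]; exact h2⟩
  · rintro ⟨h1, h2⟩
    exact ⟨h1, by rw [h b (Finset.mem_range.1 hb) h1]; exact h2⟩

theorem cntf_zero_of_lt {f : ℕ → ℕ} {L t a P : ℕ} (hf : ∀ b, f b < P) (ht : P ≤ t) :
    cntf f L t a = 0 := by
  unfold cntf
  rw [Finset.card_eq_zero, Finset.filter_eq_empty_iff]
  rintro b - ⟨-, h2⟩
  have := hf b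
  omega

/-- a system of typings of the elements of `T` -/
structure TSys (T : Type) (k pp W B : ℕ) where
  /-- the auxiliary colour -/
  F : (ℕ → T) → ℕ → Fin pp
  /-- the typings -/
  ty : Fin k → T → Fin pp → Fin pp
  caus : ∀ t t' m, (∀ j ≤ m, t j = t' j) → F t m = F t' m
  far : ∀ t s m m', m < m' → m' < m + W → ty s (t m) (F t m) ≠ ty s (t m') (F t m')
  sep : ∀ (x : T) (f : Fin pp) (G : Finset (T × Fin pp)), G.card ≤ B →
        ∃ s, ∀ g ∈ G, ty s g.1 g.2 = ty s x f → g = (x, f)

/-- the cores of the letters -/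
abbrev T0 (p : Par) (S : ℕ) : Type := Fin (p.P 0) × Bool × Fin (2 ^ S)

/-- the alphabet -/
abbrev Al (p : Par) (S : ℕ) (kk pp : ℕ → ℕ) : Type :=
  T0 p S × Fin (pp 0) × (Fin (kk 0) → Fin p.q)

/-- the data of the construction -/
structure Dat (p : Par) (S : ℕ) (kk W pp : ℕ → ℕ) where
  hq : 0 < p.q
  hP : 0 < p.P 0
  hk : ∀ i, 0 < kk i
  hpp : ∀ i, 0 < pp i
  hW : ∀ i, 0 < W i
  hWlen : ∀ i, W i * p.len i = p.P i
  hlen : ∀ i, 0 < p.len i
  hnu : ∀ i, p.len i ∣ p.nu i
  ts0 : TSys (T0 p S) (kk 0) (pp 0) (W 0) p.B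
  ts : ∀ i, TSys (Fin (p.len (i + 1)) → Al p S kk pp) (kk (i + 1)) (pp (i + 1)) (W (i + 1)) p.B

variable {p : Par} {S : ℕ} {kk W pp : ℕ → ℕ} (D : Dat p S kk W pp) (b : ℕ → Bool)
  (a : ℕ → Fin (2 ^ S))

/-- the core of the letter at `n` -/
def core (n : ℕ) : T0 p S := (⟨n % p.P 0, Nat.mod_lt _ D.hP⟩, b n, a n)

/-- the types at level 0 -/
def tau0 (s x : ℕ) : ℕ :=
  (D.ts0.ty ⟨s % kk 0, Nat.mod_lt _ (D.hk 0)⟩ (core D b a x) (D.ts0.F (core D b a) x)).val

/-- the infinite word -/
def Wd (n : ℕ) : Al p S kk pp :=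
  (core D b a n, D.ts0.F (core D b a) n,
    fun s => ⟨cntf (tau0 D b a s) (p.len 0) (tau0 D b a s n) n % p.q, Nat.mod_lt _ D.hq⟩)

/-- the content of the block number `m` at level `i + 1` -/
def cont (i m : ℕ) : Fin (p.len (i + 1)) → Al p S kk pp :=
  fun j => Wd D b a (m * p.len (i + 1) + j)

/-- the types -/
def tau : ℕ → ℕ → ℕ → ℕ
  | 0, s, x => tau0 D b a s x
  | i + 1, s, x =>
    ((D.ts i).ty ⟨s % kk (i + 1), Nat.mod_lt _ (D.hk _)⟩ (cont D b a i (x / p.len (i + 1)))
      ((D.ts i).F (cont D b a i) (x / p.len (i + 1)))).val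

theorem tau_succ (i s x : ℕ) : tau D b a (i + 1) s x =
    ((D.ts i).ty ⟨s % kk (i + 1), Nat.mod_lt _ (D.hk _)⟩ (cont D b a i (x / p.len (i + 1)))
      ((D.ts i).F (cont D b a i) (x / p.len (i + 1)))).val := rfl

/-- message of the window channel -/
def wmsg (i k : ℕ) : Fin (kk i) × Fin (pp i) → Fin p.q :=
  fun st => ⟨cntf (tau D b a i st.1) (p.len i) st.2 (k * p.nu i) % p.q, Nat.mod_lt _ D.hq⟩

/-- message of the block channel -/
def bmsg (i k : ℕ) : Fin (W (i + 1)) × Fin (pp (i + 1)) × (Fin (kk (i + 1)) → Fin p.q) :=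
  (⟨k % W (i + 1), Nat.mod_lt _ (D.hW _)⟩,
    if k = 0 then ⟨0, D.hpp _⟩ else (D.ts i).F (cont D b a i) (k - 1),
    fun s => ⟨(if k = 0 then 0 else
      cntf (tau D b a (i + 1) s) (p.len (i + 1))
        (tau D b a (i + 1) s ((k - 1) * p.len (i + 1))) ((k - 1) * p.len (i + 1))) % p.q,
      Nat.mod_lt _ D.hq⟩)

/-! ### causality -/

variable {D b a} {a' : ℕ → Fin (2 ^ S)} {N : ℕ}

theorem core_congr (h : ∀ n < N, a n = a' n) {n : ℕ} (hn : n < N) :
    core D b a n = core D b a' n := by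
  simp only [core, h n hn]

theorem F0_congr (h : ∀ n < N, a n = a' n) {n : ℕ} (hn : n < N) :
    D.ts0.F (core D b a) n = D.ts0.F (core D b a') n :=
  D.ts0.caus _ _ _ (fun _ hj => core_congr h (lt_of_le_of_lt hj hn))

theorem tau0_congr (h : ∀ n < N, a n = a' n) {n : ℕ} (hn : n < N) (s : ℕ) :
    tau0 D b a s n = tau0 D b a' s n := by
  unfold tau0
  rw [core_congr h hn, F0_congr h hn]

theorem Wd_congr (h : ∀ n < N, a n = a' n) {n : ℕ} (hn : n < N) :
    Wd D b a n = Wd D b a' n := by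
  unfold Wd
  rw [core_congr h hn, F0_congr h hn]
  congr 2
  funext s
  rw [Fin.mk.injEq, tau0_congr h hn]
  congr 1
  exact cntf_congr (fun c hc _ => tau0_congr h (lt_trans hc hn) _)

theorem cont_congr (h : ∀ n < N, a n = a' n) {i m : ℕ} (hm : (m + 1) * p.len (i + 1) ≤ N) :
    cont D b a i m = cont D b a' i m := by
  funext j
  unfold cont
  apply Wd_congr h
  have := j.2
  calc m * p.len (i + 1) + j < m * p.len (i + 1) + p.len (i + 1) := by omega
    _ = (m + 1) * p.len (i + 1) := by ring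
    _ ≤ N := hm

theorem F_congr (h : ∀ n < N, a n = a' n) {i m : ℕ} (hm : (m + 1) * p.len (i + 1) ≤ N) :
    (D.ts i).F (cont D b a i) m = (D.ts i).F (cont D b a' i) m :=
  (D.ts i).caus _ _ _ (fun j hj => cont_congr h
    (le_trans (Nat.mul_le_mul_right _ (by omega)) hm))

theorem tau_congr (h : ∀ n < N, a n = a' n) {i x : ℕ} (hx : x + p.len i ≤ N) (s : ℕ) :
    tau D b a i s x = tau D b a' i s x := by
  rcases i with _ | i
  · have h1 := D.hlen 0
    exact tau0_congr h (by omega) s
  · have hm : (x / p.len (i + 1) + 1) * p.len (i + 1) ≤ N := by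
      have := Nat.div_mul_le_self x (p.len (i + 1))
      calc (x / p.len (i + 1) + 1) * p.len (i + 1)
          = x / p.len (i + 1) * p.len (i + 1) + p.len (i + 1) := by ring
        _ ≤ x + p.len (i + 1) := by omega
        _ ≤ N := hx
    rw [tau_succ, tau_succ, cont_congr h hm, F_congr h hm]

theorem cnt_congr (h : ∀ n < N, a n = a' n) {i x : ℕ} (hx : x ≤ N) (hd : p.len i ∣ x)
    (s t : ℕ) :
    cntf (tau D b a i s) (p.len i) t x = cntf (tau D b a' i s) (p.len i) t x := by
  apply cntf_congr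
  intro c hc hdc
  apply tau_congr h
  obtain ⟨u, rfl⟩ := hd
  obtain ⟨v, rfl⟩ := hdc
  have hvu : v < u := lt_of_mul_lt_mul_left hc (Nat.zero_le _)
  calc p.len i * v + p.len i = p.len i * (v + 1) := by ring
    _ ≤ p.len i * u := Nat.mul_le_mul_left _ hvu
    _ ≤ N := hx

theorem wmsg_congr (h : ∀ n < N, a n = a' n) {i k : ℕ} (hk : k * p.nu i ≤ N) :
    wmsg D b a i k = wmsg D b a' i k := by
  funext st
  unfold wmsg
  rw [Fin.mk.injEq, cnt_congr h hk (Dvd.dvd.mul_left (D.hnu i) k)]

theorem bmsg_congr (h : ∀ n < N, a n = a' n) {i k : ℕ} (hk : k * p.len (i + 1) ≤ N) :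
    bmsg D b a i k = bmsg D b a' i k := by
  unfold bmsg
  rcases k with _ | k
  · simp
  · have h1 : (k + 1 - 1 + 1) * p.len (i + 1) ≤ N := by simpa using hk
    have h2 : (k + 1 - 1) * p.len (i + 1) + p.len (i + 1) ≤ N := by
      calc (k + 1 - 1) * p.len (i + 1) + p.len (i + 1) = (k + 1 - 1 + 1) * p.len (i + 1) := by
            ring
        _ ≤ N := h1
    rw [F_congr h h1]
    congr 2
    funext s
    rw [Fin.mk.injEq, tau_congr h h2,
      cnt_congr h (by omega) (Dvd.intro_left _ rfl)]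

/-! ### elementary properties -/

theorem tau_lt (i s x : ℕ) : tau D b a i s x < pp i := by
  rcases i with _ | i
  · exact (D.ts0.ty _ _ _).2
  · exact ((D.ts i).ty _ _ _).2

theorem tau0_mod (s : ℕ) : tau0 D b a (s % kk 0) = tau0 D b a s := by
  funext x
  unfold tau0
  simp only [Nat.mod_mod]

theorem tau_mod (i s : ℕ) : tau D b a i (s % kk i) = tau D b a i s := by
  rcases i with _ | i
  · exact tau0_mod s
  · funext x
    rw [tau_succ, tau_succ]
    simp only [Nat.mod_mod]

/-- the relation of having the same core -/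
def Crel (D : Dat p S kk W pp) (b : ℕ → Bool) (a : ℕ → Fin (2 ^ S)) : ℕ → ℕ → ℕ → Prop
  | 0, x, y => core D b a x = core D b a y ∧
      D.ts0.F (core D b a) x = D.ts0.F (core D b a) y
  | i + 1, x, y => Ag (Wd D b a) x y (p.len (i + 1))

theorem len_zero (p : Par) : p.len 0 = 1 := pow_zero _

theorem Wd_core {x y : ℕ} (h : Wd D b a x = Wd D b a y) : core D b a x = core D b a y :=
  congrArg Prod.fst h

theorem Wd_F {x y : ℕ} (h : Wd D b a x = Wd D b a y) :
    D.ts0.F (core D b a) x = D.ts0.F (core D b a) y :=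
  congrArg (fun z => z.2.1) h

theorem Wd_lab {x y : ℕ} (h : Wd D b a x = Wd D b a y) (s : ℕ) :
    cntf (tau0 D b a s) (p.len 0) (tau0 D b a s x) x % p.q =
      cntf (tau0 D b a s) (p.len 0) (tau0 D b a s y) y % p.q := by
  have h1 := congrArg (fun z => (z.2.2 ⟨s % kk 0, Nat.mod_lt _ (D.hk 0)⟩).val) h
  simp only [Wd] at h1
  rw [tau0_mod s] at h1
  exact h1

theorem Wd_a {x y : ℕ} (h : Wd D b a x = Wd D b a y) : a x = a y := by
  have := Wd_core h
  exact congrArg (fun z => z.2.2) this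

theorem tau0_of {x y : ℕ} (h1 : core D b a x = core D b a y)
    (h2 : D.ts0.F (core D b a) x = D.ts0.F (core D b a) y) (s : ℕ) :
    tau0 D b a s x = tau0 D b a s y := by
  unfold tau0
  rw [h1, h2]

theorem cont_of_ag {i m m' : ℕ} (h : Ag (Wd D b a) (m * p.len (i + 1)) (m' * p.len (i + 1))
    (p.len (i + 1))) : cont D b a i m = cont D b a i m' := by
  funext j
  exact h j j.2

theorem a_of_ag {x y L : ℕ} (h : Ag (Wd D b a) x y L) : ∀ j < L, a (x + j) = a (y + j) :=
  fun j hj => Wd_a (h j hj)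

/-- The structure theorem: a sequence `a` with the channel properties gives a good word. -/
theorem good_of (D : Dat p S kk W pp) (b : ℕ → Bool) (a : ℕ → Fin (2 ^ S))
    (hw : ∀ i k k', (∀ j < p.nu i, a (k * p.nu i + j) = a (k' * p.nu i + j)) →
      wmsg D b a i k = wmsg D b a i k')
    (hb : ∀ i k k', (∀ j < p.len (i + 1), a (k * p.len (i + 1) + j) = a (k' * p.len (i + 1) + j)) →
      bmsg D b a i k = bmsg D b a i k') :
    Good p (Wd D b a) (tau D b a) (Crel D b a) := by
  -- consequences of the agreement of two windows of length `2 * len`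
  have key : ∀ i m m', Ag (Wd D b a) (m * p.len (i + 1)) (m' * p.len (i + 1))
      (2 * p.len (i + 1)) →
      cont D b a i m = cont D b a i m' ∧
      bmsg D b a i (m + 1) = bmsg D b a i (m' + 1) := by
    intro i m m' h
    refine ⟨cont_of_ag (fun t ht => h t (by omega)), hb i _ _ (fun j hj => ?_)⟩
    have := Wd_a (h (p.len (i + 1) + j) (by omega))
    have e1 : (m + 1) * p.len (i + 1) + j = m * p.len (i + 1) + (p.len (i + 1) + j) := by ring
    have e2 : (m' + 1) * p.len (i + 1) + j = m' * p.len (i + 1) + (p.len (i + 1) + j) := by ring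
    rw [e1, e2]
    exact this
  have keyF : ∀ i m m', bmsg D b a i (m + 1) = bmsg D b a i (m' + 1) →
      (D.ts i).F (cont D b a i) m = (D.ts i).F (cont D b a i) m' := by
    intro i m m' h
    have h1 := congrArg (fun z => z.2.1) h
    simpa [bmsg] using h1
  have keyL : ∀ i m m', bmsg D b a i (m + 1) = bmsg D b a i (m' + 1) → ∀ s,
      cntf (tau D b a (i + 1) s) (p.len (i + 1))
        (tau D b a (i + 1) s (m * p.len (i + 1))) (m * p.len (i + 1)) % p.q =
      cntf (tau D b a (i + 1) s) (p.len (i + 1))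
        (tau D b a (i + 1) s (m' * p.len (i + 1))) (m' * p.len (i + 1)) % p.q := by
    intro i m m' h s
    have h1 := congrArg
      (fun z => (z.2.2 ⟨s % kk (i + 1), Nat.mod_lt _ (D.hk (i + 1))⟩).val) h
    simp only [bmsg] at h1
    rw [tau_mod (i + 1) s] at h1
    simpa using h1
  have typ : ∀ i x y s, p.len i ∣ x → p.len i ∣ y → Ag (Wd D b a) x y (p.wid i) →
      tau D b a i s x = tau D b a i s y := by
    intro i x y s hx hy h
    rcases i with _ | i
    · have h0 := h 0 (by simp [Par.wid])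
      simp only [Nat.add_zero] at h0
      exact tau0_of (Wd_core h0) (Wd_F h0) s
    · have hwid : p.wid (i + 1) = 2 * p.len (i + 1) := by simp [Par.wid, Par.len]
      rw [hwid] at h
      obtain ⟨m, rfl⟩ := hx
      obtain ⟨m', rfl⟩ := hy
      rw [mul_comm _ m, mul_comm _ m'] at h ⊢
      obtain ⟨h1, h2⟩ := key i m m' h
      have h3 := keyF i m m' h2
      have hl := D.hlen (i + 1)
      rw [tau_succ, tau_succ, Nat.mul_div_cancel _ hl, Nat.mul_div_cancel _ hl, h1, h3]
  refine
    { coreOf := ?_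
      coreAg := ?_
      know := ?_
      typ := typ
      label := ?_
      window := ?_
      sparse := ?_
      sep := ?_
      coreTyp := ?_
      coreEq := ?_ }
  · intro i x y hx hy h
    rcases i with _ | i
    · have h0 := h 0 (by rw [len_zero]; norm_num)
      simp only [Nat.add_zero] at h0
      exact ⟨Wd_core h0, Wd_F h0⟩
    · exact h
  · intro i x y hi hx hy h
    rcases i with _ | i
    · omega
    · exact h
  · intro i x y hx hy h
    rcases i with _ | i
    · have h1 := congrArg (fun z => z.1.val) h.1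
      exact h1
    · obtain ⟨m, rfl⟩ := hx
      obtain ⟨m', rfl⟩ := hy
      rw [mul_comm _ m, mul_comm _ m'] at h ⊢
      have h1 := hb i m m' (a_of_ag h)
      have h2 := congrArg (fun z => z.1.val) h1
      simp only [bmsg] at h2
      rw [← D.hWlen (i + 1)]
      exact Nat.ModEq.mul_right' _ h2
  · intro i x y s hx hy h
    have ht := typ i x y s hx hy h
    rcases i with _ | i
    · have h0 := h 0 (by simp [Par.wid])
      simp only [Nat.add_zero] at h0
      have h1 := Wd_lab h0 s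
      show cntf (tau0 D b a s) (p.len 0) (tau0 D b a s x) x % p.q =
        cntf (tau0 D b a s) (p.len 0) (tau0 D b a s x) y % p.q
      rw [h1]
      have : tau0 D b a s x = tau0 D b a s y := ht
      rw [this]
    · have hwid : p.wid (i + 1) = 2 * p.len (i + 1) := by simp [Par.wid, Par.len]
      rw [hwid] at h
      obtain ⟨m, rfl⟩ := hx
      obtain ⟨m', rfl⟩ := hy
      rw [mul_comm _ m, mul_comm _ m'] at h ht ⊢
      obtain ⟨h1, h2⟩ := key i m m' h
      have h3 := keyL i m m' h2 s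
      show cntf (tau D b a (i + 1) s) (p.len (i + 1)) _ _ % p.q =
        cntf (tau D b a (i + 1) s) (p.len (i + 1)) _ _ % p.q
      rw [h3, ht]
  · intro i x y s t hx hy h
    obtain ⟨k, rfl⟩ := hx
    obtain ⟨k', rfl⟩ := hy
    rw [mul_comm _ k, mul_comm _ k'] at h ⊢
    have h1 := hw i k k' (a_of_ag h)
    show cntf (tau D b a i s) (p.len i) t _ % p.q = cntf (tau D b a i s) (p.len i) t _ % p.q
    by_cases ht : t < pp i
    · have h2 := congrArg (fun z => (z (⟨s % kk i, Nat.mod_lt _ (D.hk i)⟩, ⟨t, ht⟩)).val) h1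
      simp only [wmsg] at h2
      rw [tau_mod i s] at h2
      exact h2
    · rw [cntf_zero_of_lt (P := pp i) (fun c => tau_lt i s c) (by omega),
        cntf_zero_of_lt (P := pp i) (fun c => tau_lt i s c) (by omega)]
  · intro i x y s hx hy hxy h
    by_contra hlt
    push Not at hlt
    rcases i with _ | i
    · have hW0 : W 0 = p.P 0 := by
        have := D.hWlen 0
        rwa [len_zero, mul_one] at this
      refine D.ts0.far (core D b a) ⟨s % kk 0, Nat.mod_lt _ (D.hk 0)⟩ x y hxy (by omega) ?_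
      exact Fin.ext h
    · have hl := D.hlen (i + 1)
      obtain ⟨m, rfl⟩ := hx
      obtain ⟨m', rfl⟩ := hy
      rw [mul_comm _ m, mul_comm _ m'] at h hxy hlt
      rw [← D.hWlen (i + 1), ← add_mul] at hlt
      have h1 : m < m' := lt_of_mul_lt_mul_right hxy (Nat.zero_le _)
      have h2 : m' < m + W (i + 1) := lt_of_mul_lt_mul_right hlt (Nat.zero_le _)
      refine (D.ts i).far (cont D b a i) ⟨s % kk (i + 1), Nat.mod_lt _ (D.hk _)⟩ m m' h1 h2 ?_
      apply Fin.ext
      rwa [tau_succ, tau_succ, Nat.mul_div_cancel _ hl, Nat.mul_div_cancel _ hl] at h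
  · intro i x hx G hG hcard
    classical
    rcases i with _ | i
    · obtain ⟨s, hs⟩ := D.ts0.sep (core D b a x) (D.ts0.F (core D b a) x)
        (G.image (fun y => (core D b a y, D.ts0.F (core D b a) y)))
        (le_trans Finset.card_image_le hcard)
      refine ⟨s, fun y hy h => ?_⟩
      have hs' : (⟨(s : ℕ) % kk 0, Nat.mod_lt _ (D.hk 0)⟩ : Fin (kk 0)) = s :=
        Fin.ext (Nat.mod_eq_of_lt s.2)
      have h1 := hs _ (Finset.mem_image_of_mem _ hy) (by
        have h2 : tau0 D b a s y = tau0 D b a s x := h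
        unfold tau0 at h2
        rw [hs'] at h2
        exact Fin.ext h2)
      have h3 := Prod.ext_iff.1 h1
      exact ⟨h3.1, h3.2⟩
    · have hl := D.hlen (i + 1)
      obtain ⟨s, hs⟩ := (D.ts i).sep (cont D b a i (x / p.len (i + 1)))
        ((D.ts i).F (cont D b a i) (x / p.len (i + 1)))
        (G.image (fun y => (cont D b a i (y / p.len (i + 1)),
          (D.ts i).F (cont D b a i) (y / p.len (i + 1)))))
        (le_trans Finset.card_image_le hcard)
      refine ⟨s, fun y hy h => ?_⟩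
      have hs' : (⟨(s : ℕ) % kk (i + 1), Nat.mod_lt _ (D.hk (i + 1))⟩ : Fin (kk (i + 1))) = s :=
        Fin.ext (Nat.mod_eq_of_lt s.2)
      have h1 := hs _ (Finset.mem_image_of_mem _ hy) (by
        have h2 : tau D b a (i + 1) s y = tau D b a (i + 1) s x := h
        rw [tau_succ, tau_succ, hs'] at h2
        exact Fin.ext h2)
      have h3 := (Prod.ext_iff.1 h1).1
      simp only at h3
      intro t ht
      have h4 := congrFun h3 ⟨t, ht⟩
      simp only [cont] at h4
      rw [Nat.div_mul_cancel (hG y hy), Nat.div_mul_cancel hx] at h4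
      exact h4
  · intro x y s h
    exact tau0_of h.1 h.2 s
  · intro x y h hlab
    have ht : ∀ s, tau0 D b a s x = tau0 D b a s y := fun s => tau0_of h.1 h.2 s
    unfold Wd
    rw [h.1, h.2]
    congr 2
    funext s
    have h1 : cntf (tau0 D b a s) (p.len 0) (tau0 D b a s x) x % p.q =
        cntf (tau0 D b a s) (p.len 0) (tau0 D b a s x) y % p.q := hlab s
    rw [Fin.mk.injEq, h1, ht s]

end Pool.Agent.Helper78.SG
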