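import Pool.Agent.Helper78.SG.PartCCore
import Pool.Agent.Helper72.SG.Channels
import Pool.Agent.Helper72.SG.TypeSystem

/-! Part C of the proof of frozen statement S01797: assembly. -/

set_option autoImplicit false

namespace Pool.Agent.Helper78.SG

open Pool.Agent.Helper68.SG

/-- Channels whose messages are natural numbers. -/
theorem channelsNat (Aux : Type) [Fintype Aux] [Nonempty Aux] (lam : ℕ → ℕ)
    (hlam : ∀ c, 2 ^ (c + 1) ∣ lam c) (hpos : ∀ c, 0 < lam c)
    (msg : ℕ → (ℕ → Aux) → ℕ → ℕ)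
    (hb : ∀ c a k, msg c a k < (Fintype.card Aux) ^ (lam c / 2 ^ (c + 1)))
    (hmu : ∀ c a a' k, (∀ n < k * lam c, a n = a' n) → msg c a k = msg c a' k) :
    ∃ a : ℕ → Aux, ∀ c k k', (∀ j < lam c, a (k * lam c + j) = a (k' * lam c + j)) →
      msg c a k = msg c a k' := by
  classical
  have he : ∀ c, Nonempty (Fin ((Fintype.card Aux) ^ (lam c / 2 ^ (c + 1))) ≃
      (Fin (lam c / 2 ^ (c + 1)) → Aux)) := fun c =>
    Fintype.card_eq.1 (by simp)
  let e := fun c => (he c).some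
  obtain ⟨a, ha⟩ := Pool.Agent.Helper72.SG.channels Aux lam hlam hpos
    (fun c => Fin ((Fintype.card Aux) ^ (lam c / 2 ^ (c + 1))))
    (fun c x j => if h : j < lam c / 2 ^ (c + 1) then e c x ⟨j, h⟩ else Classical.arbitrary _)
    (by
      intro c x y h
      apply (e c).injective
      funext j
      have := h j j.2
      simpa using this)
    (fun c a k => ⟨msg c a k, hb c a k⟩)
    (by
      intro c a a' k h
      exact Fin.ext (hmu c a a' k h))
  refine ⟨a, fun c k k' h => ?_⟩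
  have := ha c k k' h
  simpa using this

variable {p : Par} {S : ℕ} {kk W pp : ℕ → ℕ}

/-- For given data there is a sequence `a` with the channel properties. -/
theorem exists_seq (D : Dat p S kk W pp) (b : ℕ → Bool)
    (h1 : ∀ i, 2 ^ (2 * i + 1) ∣ p.nu i ∧ 0 < p.nu i ∧
      p.q ^ (kk i * pp i) ≤ (2 ^ S) ^ (p.nu i / 2 ^ (2 * i + 1)))
    (h2 : ∀ i, 1 ≤ i → 2 ^ (2 * i) ∣ p.len i ∧ 0 < p.len i ∧
      W i * pp i * p.q ^ kk i ≤ (2 ^ S) ^ (p.len i / 2 ^ (2 * i))) :
    ∃ a : ℕ → Fin (2 ^ S), Good p (Wd D b a) (tau D b a) (Crel D b a) := by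
  classical
  have hS : 0 < 2 ^ S := by positivity
  have : Nonempty (Fin (2 ^ S)) := ⟨⟨0, hS⟩⟩
  let lam : ℕ → ℕ := fun c => if c % 2 = 0 then p.nu (c / 2) else p.len (c / 2 + 1)
  have lam0 : ∀ i, lam (2 * i) = p.nu i := by
    intro i
    have e1 : (2 * i) % 2 = 0 := by omega
    have e2 : (2 * i) / 2 = i := by omega
    simp only [lam, e1, e2, if_true]
  have lam1 : ∀ i, lam (2 * i + 1) = p.len (i + 1) := by
    intro i
    have e1 : ¬ (2 * i + 1) % 2 = 0 := by omega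
    have e2 : (2 * i + 1) / 2 = i := by omega
    simp only [lam, e1, e2, if_false]
  let msg : ℕ → (ℕ → Fin (2 ^ S)) → ℕ → ℕ := fun c a k =>
    if c % 2 = 0 then
      (Fintype.equivFin (Fin (kk (c / 2)) × Fin (pp (c / 2)) → Fin p.q)
        (wmsg D b a (c / 2) k)).val
    else
      (Fintype.equivFin (Fin (W (c / 2 + 1)) × Fin (pp (c / 2 + 1)) ×
        (Fin (kk (c / 2 + 1)) → Fin p.q)) (bmsg D b a (c / 2) k)).val
  have msg0 : ∀ i a k, msg (2 * i) a k =
      (Fintype.equivFin (Fin (kk i) × Fin (pp i) → Fin p.q) (wmsg D b a i k)).val := by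
    intro i a k
    have e1 : (2 * i) % 2 = 0 := by omega
    have e2 : (2 * i) / 2 = i := by omega
    simp only [msg, e1, if_true]
    rw [e2]
  have msg1 : ∀ i a k, msg (2 * i + 1) a k =
      (Fintype.equivFin (Fin (W (i + 1)) × Fin (pp (i + 1)) ×
        (Fin (kk (i + 1)) → Fin p.q)) (bmsg D b a i k)).val := by
    intro i a k
    have e1 : ¬ (2 * i + 1) % 2 = 0 := by omega
    have e2 : (2 * i + 1) / 2 = i := by omega
    simp only [msg, e1, if_false]
    rw [e2]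
  have hcase : ∀ c, (∃ i, c = 2 * i) ∨ ∃ i, c = 2 * i + 1 := by
    intro c
    rcases Nat.even_or_odd' c with ⟨i, h | h⟩
    · exact Or.inl ⟨i, h⟩
    · exact Or.inr ⟨i, h⟩
  obtain ⟨a, ha⟩ := channelsNat (Fin (2 ^ S)) lam
    (by
      intro c
      rcases hcase c with ⟨i, rfl⟩ | ⟨i, rfl⟩
      · rw [lam0]; exact (h1 i).1
      · rw [lam1]
        have := (h2 (i + 1) (by omega)).1
        rwa [show 2 * (i + 1) = 2 * i + 1 + 1 by ring] at this)
    (by
      intro c
      rcases hcase c with ⟨i, rfl⟩ | ⟨i, rfl⟩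
      · rw [lam0]; exact (h1 i).2.1
      · rw [lam1]; exact (h2 (i + 1) (by omega)).2.1)
    msg
    (by
      intro c a k
      rcases hcase c with ⟨i, rfl⟩ | ⟨i, rfl⟩
      · rw [lam0, msg0]
        refine lt_of_lt_of_le (Fin.is_lt _) ?_
        have := (h1 i).2.2
        simpa using this
      · rw [lam1, msg1]
        refine lt_of_lt_of_le (Fin.is_lt _) ?_
        have := (h2 (i + 1) (by omega)).2.2
        rw [show 2 * (i + 1) = 2 * i + 1 + 1 by ring] at this
        simpa [mul_assoc] using this)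
    (by
      intro c a a' k h
      rcases hcase c with ⟨i, rfl⟩ | ⟨i, rfl⟩
      · rw [lam0] at h
        rw [msg0, msg0, wmsg_congr h le_rfl]
      · rw [lam1] at h
        rw [msg1, msg1, bmsg_congr h le_rfl])
  refine ⟨a, good_of D b a ?_ ?_⟩
  · intro i k k' h
    have := ha (2 * i) k k' (by rw [lam0]; exact h)
    rw [msg0, msg0] at this
    exact (Fintype.equivFin _).injective (Fin.ext this)
  · intro i k k' h
    have := ha (2 * i + 1) k k' (by rw [lam1]; exact h)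
    rw [msg1, msg1] at this
    exact (Fintype.equivFin _).injective (Fin.ext this)

theorem exists_tsys (T : Type) [Fintype T] (p d k W B : ℕ) (hp : p.Prime)
    (hcard : Fintype.card T ≤ p ^ d) (hkW : k * W < p) (hW : 1 ≤ W) (hB : B * (d + 1) < k) :
    Nonempty (TSys T k p W B) := by
  obtain ⟨F, ty, h1, h2, h3⟩ :=
    Pool.Agent.Helper72.SG.typeSystem T p d k W B hp hcard hkW hW hB
  exact ⟨⟨F, ty, h1, h2, h3⟩⟩

/-- Part C from the existence of parameters. -/
theorem partC_of (n : ℕ) (hpar : ∃ (p : Par) (S : ℕ) (kk dd W pp : ℕ → ℕ), n ≤ p.n ∧ p.Ok ∧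
    (∀ i, (pp i).Prime) ∧
    (∀ i, 1 ≤ W i ∧ W i * p.len i = p.P i) ∧
    (∀ i, kk i * W i < pp i) ∧
    (∀ i, p.B * (dd i + 1) < kk i) ∧
    (p.P 0 * 2 * 2 ^ S ≤ pp 0 ^ dd 0) ∧
    (∀ i, 1 ≤ i → (p.P 0 * 2 * 2 ^ S * pp 0 * p.q ^ kk 0) ^ p.len i ≤ pp i ^ dd i) ∧
    (∀ i, 2 ^ (2 * i + 1) ∣ p.nu i ∧ 0 < p.nu i ∧
      p.q ^ (kk i * pp i) ≤ (2 ^ S) ^ (p.nu i / 2 ^ (2 * i + 1))) ∧
    (∀ i, 1 ≤ i → 2 ^ (2 * i) ∣ p.len i ∧ 0 < p.len i ∧
      W i * pp i * p.q ^ kk i ≤ (2 ^ S) ^ (p.len i / 2 ^ (2 * i)))) :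
    ∃ p : Par, n ≤ p.n ∧ p.Ok ∧
    ∃ (A : Type) (_ : Fintype A) (w : (ℕ → Bool) → ℕ → A),
      (∀ b, ∃ tau C, Good p (w b) tau C) ∧ (∀ b b' j, w b j = w b' j → b j = b' j) := by
  classical
  obtain ⟨p, S, kk, dd, W, pp, hn, hok, hprime, hW, hkW, hB, hc0, hc1, hnu, hlen⟩ := hpar
  have hlenpos : ∀ i, 0 < p.len i := by
    intro i
    have h1 := hok.n_pos
    have h2 := hok.r_ge
    have : 0 < p.r := by omega
    exact pow_pos this i
  obtain ⟨ts0⟩ := exists_tsys (T0 p S) (pp 0) (dd 0) (kk 0) (W 0) p.B (hprime 0)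
    (by simpa [mul_assoc] using hc0) (hkW 0) (hW 0).1 (hB 0)
  have hts : ∀ i, Nonempty (TSys (Fin (p.len (i + 1)) → Al p S kk pp) (kk (i + 1)) (pp (i + 1))
      (W (i + 1)) p.B) := by
    intro i
    refine exists_tsys _ (pp (i + 1)) (dd (i + 1)) (kk (i + 1)) (W (i + 1)) p.B (hprime _)
      ?_ (hkW _) (hW _).1 (hB _)
    have h := hc1 (i + 1) (by omega)
    simpa [mul_assoc] using h
  let D : Dat p S kk W pp :=
    { hq := by have := hok.q_gt; omega
      hP := by
        show 0 < 2 ^ p.e 0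
        positivity
      hk := fun i => lt_of_le_of_lt (Nat.zero_le _) (hB i)
      hpp := fun i => (hprime i).pos
      hW := fun i => (hW i).1
      hWlen := fun i => (hW i).2
      hlen := hlenpos
      hnu := hok.len_dvd_nu
      ts0 := ts0
      ts := fun i => (hts i).some }
  refine ⟨p, hn, hok, Al p S kk pp, inferInstance,
    fun b => Wd D b (exists_seq D b hnu hlen).choose, ?_, ?_⟩
  · intro b
    exact ⟨_, _, (exists_seq D b hnu hlen).choose_spec⟩
  · intro b b' j h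
    exact congrArg (fun z => z.1.2.1) h

end Pool.Agent.Helper78.SG
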